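import Pool.Agent.Helper59.LE.Vs
import Pool.Agent.Helper53.LE.Cl
import Pool.Agent.Helper53.LE.Rr
import Pool.Agent.Helper29.LE.C
import Pool.Agent.Helper4.LE.Th
import Pool.Agent.Helper65.LE.Pt
import Pool.Agent.Helper65.LU.Pw
import Pool.Agent.Helper3.LU.Params

/-!
PROJECT ALLQ (MP_274814_nt), LT2 side over a number field: assembly.
-/

set_option autoImplicit false

namespace Pool.Agent.Helper34.LEF

open Finset Pool.Agent.Helper34.LT LTG Pool.Agent.Helper34.LU Pool.Agent.Helper53.LE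
open Pool.Agent.Helper13.LT (PS)
open Pool.Agent.Helper59.LE (A_main_E)
open Pool.Agent.Helper29.LE (C_main_E)
open Pool.Agent.Helper4.LE (TH_E)
open Pool.Agent.Helper65.LE (th_pow)

theorem wv_smul {q : ℕ} {s t : Finset ℕ} (hs : HS q s) (ht : HS q t) (X : II s t → ℂ)
    (σ x : UU q → ℂ) :
    wv hs ht (fun i => X i * σ (pj hs ht i)) x = wv hs ht X (fun w => σ w * x w) := by
  funext i
  simp only [wv, mul_assoc]

theorem pair_main_E {q : ℕ} {s t : Finset ℕ} {ρ1 ρ2 : ℕ → ℂ} {κ1 : s → ℂ} {κ2 : t → ℂ}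
    {c1 c2 : Polynomial ℤ → ℂ} {f : (s → ℂ) → ℂ} {g : (t → ℂ) → ℂ}
    (α : ℂ) (hα : IsIntegral ℤ α) (hα0 : α ≠ 0)
    (h1 : IsThA α q s ρ1 κ1 c1 f) (h2 : IsThA α q t ρ2 κ2 c2 g) (hst : s ≠ t)
    (hk1 : ∀ u (hu : u ∈ s) (hv : u ∈ t), κ1 ⟨u, hu⟩ * ρ1 u + κ2 ⟨u, hv⟩ * ρ2 u ≠ 0)
    (hk2 : ∀ u (hu : u ∈ s) (hv : q - u ∈ t),
      κ1 ⟨u, hu⟩ * ρ1 u - κ2 ⟨q - u, hv⟩ * ρ2 (q - u) ≠ 0)
    (σ : UU q → ℂ) (hσ0 : ∀ w, σ w ≠ 0) (hσ1 : ∀ w, ‖σ w‖ ≤ 1)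
    (n : ℕ) (hn : n * (s \ t).card < q.totient / 2) :
    ∃ k : Fin (n + 1) → II s t, AlgebraicIndependent ℚ
      (fun i => tru ρ1 ρ2 κ1 κ2 (k i) * σ (pj h1.half h2.half (k i))) := by
  by_contra hcon
  push Not at hcon
  have hq : 1 ≤ q := by have := h1.half.three; omega
  set g' := q.totient / 2 with hg'
  set r := (s \ t).card with hr
  have hrg : r ≤ g' := by
    rw [hg', ← Pool.Agent.Helper53.LX.card_half q s h1.half]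
    exact card_le_card sdiff_subset
  obtain ⟨κ, hκ, hpar⟩ := Pool.Agent.Helper3.LU.params q g' r n hq hrg hn
  obtain ⟨CB, hCB, hB⟩ := B_main_E q s t ρ1 ρ2 κ1 κ2 c1 c2 f g h1.toIsTh0 h2.toIsTh0 hk1 hk2
    (n + 1) (by omega)
  obtain ⟨CP, hCP, hP⟩ := A_main_E q s t ρ1 ρ2 κ1 κ2 c1 c2 f g α h1 h2 (n + 1) (by omega)
  obtain ⟨CZ, hZ⟩ := Z_app_E q s t ρ1 ρ2 κ1 κ2 c1 c2 f g h1.toIsTh0 h2.toIsTh0 hst
  set X0 : II s t → ℂ := fun i => tru ρ1 ρ2 κ1 κ2 i * σ (pj h1.half h2.half i) with hX0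
  have hX0ne : ∀ i, X0 i ≠ 0 := by
    rintro ((u | v) | (u | v))
    · exact mul_ne_zero (h1.rho u u.2) (hσ0 _)
    · exact mul_ne_zero (h2.rho v v.2) (hσ0 _)
    · exact mul_ne_zero (h1.kap u) (hσ0 _)
    · exact mul_ne_zero (h2.kap v) (hσ0 _)
  obtain ⟨S0, hC⟩ := C_main_E n X0 hX0ne hcon α hα hα0 κ hκ
  obtain ⟨L, T0, U, S, hL, hZ0, hLT, hTU, h1T, hLU, hBc, hS0, hS1, hS2, hS3⟩ :=
    hpar (max CB 1) CP S0 (le_max_right _ _) hCP CZ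
  set T := 2 * q * T0 with hT
  obtain ⟨c, hc0, hcS, hcU⟩ := hB L hL ((T : ℝ) * Real.log (T + 2)) U h1T hTU
    (le_trans (by
      have : CB ≤ max CB 1 := le_max_left _ _
      have h0 : 0 ≤ (L : ℝ) * Real.log (L + 2) :=
        mul_nonneg (Nat.cast_nonneg _) (Real.log_nonneg (by
          have : (0 : ℝ) ≤ L := Nat.cast_nonneg _
          linarith))
      gcongr) hLU) (le_trans (by
      have : CB ≤ max CB 1 := le_max_left _ _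
      have h0 : 0 ≤ U := le_trans (by linarith) hTU
      gcongr) hBc)
  obtain ⟨N, P, hN, hPd, hPc, hPs, hPv⟩ := hP L T hL hLT c hc0 hcS
  have hsmall : ∀ x : Fin (n + 1) → UU q → ℂ, (∀ i, ‖x i‖ ≤ 1) →
      ‖∑ k, (c k : ℂ) * ∏ i, Vx f g (k i) (wv h1.half h2.half X0 (x i))‖ ≤ Real.exp (-U) := by
    intro x hx
    have h3 := hcU (fun i w => σ w * x i w) (fun i => by
      rw [pi_norm_le_iff_of_nonneg zero_le_one]
      intro w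
      rw [norm_mul]
      calc ‖σ w‖ * ‖x i w‖ ≤ 1 * 1 := by
            have h4 := (norm_le_pi_norm (x i) w).trans (hx i)
            have h5 := hσ1 w
            gcongr
        _ = 1 := one_mul 1)
    simp only [hX0]
    simp only [wv_smul]
    exact h3
  obtain ⟨x, hx0, hx⟩ := hC S hS0 N P (hN.trans (Real.exp_le_exp.mpr hS2))
    (fun i => (hPd i).trans hS2)
    (fun i m => (hPc i m).trans (Real.exp_le_exp.mpr hS1))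
    (fun i => (hPs X0 U hsmall i).trans (Real.exp_le_exp.mpr hS3))
  obtain ⟨b, hb0, hb⟩ := hPv x hx
  have h6 := hZ x hx0 L hL b hb0 T0 (fun y j hj => hb y j hj)
  omega

theorem pair_E {q : ℕ} {s t : Finset ℕ} (hs : HS q s) (ht : HS q t) (hst : s ≠ t)
    (ρ1 ρ2 : ℕ → ℂ) (hρ1 : ∀ u ∈ s, ρ1 u ≠ 0) (hρ2 : ∀ u ∈ t, ρ2 u ≠ 0)
    (κ1 : s → ℂ) (κ2 : t → ℂ) (hκ1 : ∀ u, κ1 u ≠ 0) (hκ2 : ∀ u, κ2 u ≠ 0)
    (c1 c2 : Polynomial ℤ → ℂ) (τ1 : (s → ℂ) → ℂ) (τ2 : (t → ℂ) → ℂ)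
    (hd1 : Differentiable ℂ τ1) (hd2 : Differentiable ℂ τ2)
    (h01 : τ1 0 = 1) (h02 : τ2 0 = 1) (hq1 : QPS q s ρ1 κ1 c1 τ1) (hq2 : QPS q t ρ2 κ2 c2 τ2)
    (E E' : IntermediateField ℚ ℂ) [FiniteDimensional ℚ E] [FiniteDimensional ℚ E']
    (a : (s → ℕ) → ℂ) (b : (t → ℕ) → ℂ) (hE : RTE E a) (hE' : RTE E' b)
    (ha : PS a τ1) (hb : PS b τ2)
    (σ : UU q → ℂ) (hσ0 : ∀ w, σ w ≠ 0) (hσ1 : ∀ w, ‖σ w‖ ≤ 1)
    (n : ℕ) (hn : n * (s \ t).card < q.totient / 2) :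
    ∃ (N : ℕ) (k : Fin (n + 1) → II s t), 1 ≤ N ∧ AlgebraicIndependent ℚ
      (fun i => tru ρ1 ρ2 (fun u => 3 * κ1 u) (fun v => (N : ℂ) * (3 * κ2 v)) (k i) *
        σ (pj hs ht (k i))) := by
  obtain ⟨α, hα0, hα, hx1, hx2⟩ := RTE_RTA E E' a b hE hE' τ1 τ2 ha hb
  have h1 := TH_E α q s hs ρ1 hρ1 κ1 hκ1 c1 τ1 hd1 (by rw [h01]; exact one_ne_zero) hq1 hx1
  have h2 := TH_E α q t ht ρ2 hρ2 κ2 hκ2 c2 τ2 hd2 (by rw [h02]; exact one_ne_zero) hq2 hx2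
  obtain ⟨N, hN, hk1, hk2⟩ := Pool.Agent.Helper65.LU.exists_pow q s t ρ1 ρ2
    (fun u => 3 * κ1 u) (fun u => 3 * κ2 u) h2.kap h2.rho
  have h2' := th_pow α q t ρ2 _ _ _ h2 N hN
  obtain ⟨k, hk⟩ := pair_main_E α hα hα0 h1 h2' hst hk1 hk2 σ hσ0 hσ1 n hn
  exact ⟨N, k, hN, hk⟩

end Pool.Agent.Helper34.LEF
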